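import Mathlib
import Pool.Agent.Y875.EO.Multi

/-!
# Exact orders of additive bases of `ℕ ^ d`: the maximum is `r ^ 2 / 3 + O(r)`, uniformly in `d`

The question of Erdos and Graham (1980) for the lattice points of the orthant `ℕ ^ d`. Two notions
of a basis are treated: all points with large coordinates, respectively all but finitely many
points, are sums of at most `r` elements. In every dimension `d ≥ 1` the maximal exact order is
between `r ^ 2 / 3 - 2 r` and `r ^ 2 / 3 + 1560008 r`; the case `d = 1` is the original question. A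
basis (of the first kind) has an exact order if and only if its differences generate `ℤ ^ d`.

Upper bound: the theorem on finite abelian groups of the starting library (`P_core`), applied to
`(ℤ / Q) ^ d`. The lifting from residue classes to points uses the theorem of Gallai: a homothetic
copy of a box, with difference `Q`, consists of sums of exactly `c` elements for one `c ≤ r`; the
residue class `0` modulo `Q` contains a sum of `K - c - j` elements with coordinates at most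
`2 K Q`, for each `j ≤ r`. For the second notion the points on the axes are sufficient.
-/

open Filter

namespace Pool.Agent.Results.MP_137890_nt.EveryDimension

open Pool.Agent.H500R2.EO Pool.Agent.Y875.EO

theorem one_mem (r : ℕ) (hr : 1 ≤ r) : 1 ∈ exactOrders r := by
  have h1 : ∀ n : ℕ, n ∈ nsum Set.univ 1 := fun n => ⟨fun _ => n, fun _ => trivial, by simp⟩
  refine ⟨Set.univ, ⟨0, fun n _ => ⟨1, hr, h1 n⟩⟩, ⟨0, fun n _ => h1 n⟩, ?_⟩
  rintro k ⟨N, hN⟩
  by_contra hcon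
  have hk : k = 0 := by omega
  subst hk
  obtain ⟨v, _, hv⟩ := hN (N + 1) (by omega)
  simp at hv

theorem bounds (E : Set ℕ) (r : ℕ) (hr : 2 ≤ r) (h1 : exactOrders r ⊆ E)
    (h2 : ∀ k ∈ E, 3 * k ≤ r ^ 2 + 4680022 * r) :
    IsGreatest E (sSup E) ∧ |((sSup E : ℕ) : ℝ) - (r : ℝ) ^ 2 / 3| ≤ 1560008 * (r : ℝ) := by
  have hbdd : BddAbove E := ⟨r ^ 2 + 4680022 * r, fun k hk => by
    have := h2 k hk
    omega⟩
  have hne : E.Nonempty := ⟨1, h1 (one_mem r (by omega))⟩
  have hmem : sSup E ∈ E := Nat.sSup_mem hne hbdd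
  have hle : ∀ k ∈ E, k ≤ sSup E := fun k hk => le_csSup hbdd hk
  refine ⟨⟨hmem, hle⟩, ?_⟩
  have hup : 3 * ((sSup E : ℕ) : ℝ) ≤ (r : ℝ) ^ 2 + 4680022 * r := by exact_mod_cast h2 _ hmem
  have hr0 : (0 : ℝ) ≤ r := Nat.cast_nonneg _
  have hlow : (r : ℝ) ^ 2 / 3 - 2 * r ≤ ((sSup E : ℕ) : ℝ) := by
    rcases lt_or_ge r 5 with h5 | h5
    · have h1 : (0 : ℝ) ≤ ((sSup E : ℕ) : ℝ) := Nat.cast_nonneg _
      have h2 : (r : ℝ) ≤ 5 := by exact_mod_cast h5.le
      nlinarith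
    · obtain ⟨q, hq⟩ : ∃ q, q = (r + 1) / 3 := ⟨_, rfl⟩
      have hq2 : 2 ≤ q := by omega
      have hq3 : 3 * q - 1 ≤ r := by omega
      have hq4 : r ≤ 3 * q + 1 := by omega
      have h3 := hle _ (h1 (lower q r hq2 hq3))
      have h4 : 3 * q ^ 2 + q ≤ sSup E + 1 := by omega
      have h5 : 3 * (q : ℝ) ^ 2 + q ≤ ((sSup E : ℕ) : ℝ) + 1 := by exact_mod_cast h4
      have h6 : (r : ℝ) ≤ 3 * q + 1 := by exact_mod_cast hq4
      have h7 : (5 : ℝ) ≤ r := by exact_mod_cast ‹5 ≤ r›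
      have h8 : (2 : ℝ) ≤ q := by exact_mod_cast hq2
      nlinarith
  rw [abs_le]
  constructor
  · linarith
  · linarith

theorem limit (f : ℕ → ℕ) (C : ℝ)
    (hf : ∀ r : ℕ, 2 ≤ r → |(f r : ℝ) - (r : ℝ) ^ 2 / 3| ≤ C * r) :
    Tendsto (fun r : ℕ => (f r : ℝ) / (r : ℝ) ^ 2) atTop (nhds (1 / 3)) := by
  rw [tendsto_iff_norm_sub_tendsto_zero]
  have hlim : Tendsto (fun r : ℕ => C * (1 / (r : ℝ))) atTop (nhds 0) := by
    have := (tendsto_one_div_atTop_nhds_zero_nat (𝕜 := ℝ)).const_mul C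
    simpa using this
  refine squeeze_zero' (Eventually.of_forall fun r => norm_nonneg _) ?_ hlim
  filter_upwards [eventually_ge_atTop 2] with r hr
  have h1 := hf r hr
  have h2 : (0 : ℝ) < r := by
    have : 0 < r := by omega
    exact_mod_cast this
  rw [Real.norm_eq_abs]
  have h3 : (f r : ℝ) / (r : ℝ) ^ 2 - 1 / 3 = ((f r : ℝ) - (r : ℝ) ^ 2 / 3) / (r : ℝ) ^ 2 := by
    field_simp
  rw [h3, abs_div, abs_of_pos (by positivity : (0 : ℝ) < (r : ℝ) ^ 2),
    div_le_iff₀ (by positivity)]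
  calc |(f r : ℝ) - (r : ℝ) ^ 2 / 3| ≤ C * r := h1
    _ = C * (1 / (r : ℝ)) * (r : ℝ) ^ 2 := by field_simp

/-- **Exact orders of bases in every dimension.** -/
theorem result :
    -- the original question, with an explicit error term
    ((∀ r : ℕ, 2 ≤ r → IsGreatest (exactOrders r) (h r) ∧
        |(h r : ℝ) - (r : ℝ) ^ 2 / 3| ≤ 1560008 * (r : ℝ)) ∧
      Tendsto (fun r : ℕ => (h r : ℝ) / (r : ℝ) ^ 2) atTop (nhds (1 / 3))) ∧
    -- every dimension, with the same error term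
    ∀ d : ℕ, 1 ≤ d →
      ((∀ r : ℕ, 2 ≤ r → IsGreatest (exactOrdersD d r) (hD d r) ∧
        |(hD d r : ℝ) - (r : ℝ) ^ 2 / 3| ≤ 1560008 * (r : ℝ)) ∧
        Tendsto (fun r : ℕ => (hD d r : ℝ) / (r : ℝ) ^ 2) atTop (nhds (1 / 3))) ∧
      ((∀ r : ℕ, 2 ≤ r → IsGreatest (exactOrdersC d r) (hC d r) ∧
        |(hC d r : ℝ) - (r : ℝ) ^ 2 / 3| ≤ 1560008 * (r : ℝ)) ∧
        Tendsto (fun r : ℕ => (hC d r : ℝ) / (r : ℝ) ^ 2) atTop (nhds (1 / 3))) ∧
      -- which bases have an exact order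
      ∀ r : ℕ, 1 ≤ r → ∀ A : Set (Fin d → ℕ), IsBasisD r A →
        ((∃ k, HasExactOrderD A k) ↔ AddSubgroup.closure (Dif A) = ⊤) := by
  have key1 : ∀ r : ℕ, 2 ≤ r → IsGreatest (exactOrders r) (h r) ∧
      |(h r : ℝ) - (r : ℝ) ^ 2 / 3| ≤ 1560008 * (r : ℝ) := by
    intro r hr
    refine bounds (exactOrders r) r hr (fun _ h => h) fun k hk => ?_
    obtain ⟨A, hA, hk'⟩ := exactOrders_subset le_rfl r hk
    have := exact_le (by omega) le_rfl hA hk'
    omega
  refine ⟨⟨key1, limit _ _ fun r hr => (key1 r hr).2⟩, fun d hd => ?_⟩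
  have key2 : ∀ r : ℕ, 2 ≤ r → IsGreatest (exactOrdersD d r) (hD d r) ∧
      |(hD d r : ℝ) - (r : ℝ) ^ 2 / 3| ≤ 1560008 * (r : ℝ) := by
    intro r hr
    refine bounds (exactOrdersD d r) r hr (exactOrders_subset hd r) fun k hk => ?_
    obtain ⟨A, hA, hk'⟩ := hk
    have := exact_le (by omega) hd hA hk'
    omega
  have key3 : ∀ r : ℕ, 2 ≤ r → IsGreatest (exactOrdersC d r) (hC d r) ∧
      |(hC d r : ℝ) - (r : ℝ) ^ 2 / 3| ≤ 1560008 * (r : ℝ) := by
    intro r hr
    refine bounds (exactOrdersC d r) r hr (exactOrders_subset_C hd r) fun k hk => ?_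
    obtain ⟨A, hA, hk'⟩ := hk
    exact upper_C (by omega) hA hk'
  refine ⟨⟨key2, limit _ _ fun r hr => (key2 r hr).2⟩,
    ⟨key3, limit _ _ fun r hr => (key3 r hr).2⟩, fun r hr A hA => ⟨?_, ?_⟩⟩
  · rintro ⟨k, hk⟩
    exact closure_of_exact hk.1
  · intro hcl
    exact exists_exact hr hd hA hcl

end Pool.Agent.Results.MP_137890_nt.EveryDimension
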